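import Pool.Agent.Helper3.RB.DC

/-! The inequality for all 3-graphs. -/

set_option autoImplicit false
set_option linter.unusedVariables false
set_option maxHeartbeats 4000000
open Finset

namespace Pool.Agent.Helper3.RB

open Pool.Agent.Helper3.OP
open scoped Classical

variable {V : Type} [Fintype V] [LinearOrder V] {H : Finset (Finset V)}

/-- all sets of four inside `R` are allowed -/
def G (ok : ℕ → Bool) (H : Finset (Finset V)) (R : Finset V) : Prop :=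
  ∀ T ∈ R.powersetCard 4, ok (C4 H T) = true

theorem G_mono {ok : ℕ → Bool} {R S : Finset V} (h : R ⊆ S) (hG : G ok H S) : G ok H R :=
  fun T hT => hG T (powersetCard_mono h hT)

theorem sub1 {k : ℕ} (p : Fin (k + 1)) (κ : Fin (k + 1) ↪o V) : img (sk p κ) ⊆ img κ := by
  rw [← erase_img]
  exact erase_subset _ _

theorem sub2 {k : ℕ} (p : Fin (k + 1)) (r : Fin (k + 2)) (κ : Fin (k + 2) ↪o V) :
    img (sk p (sk r κ)) ⊆ img κ := (sub1 _ _).trans (sub1 _ _)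

theorem ok_loc {ok : ℕ → Bool} {R : Finset V} (hG : G ok H R) (κ : Fin 4 ↪o V) (h : img κ ⊆ R) :
    ok (cod4 H κ) = true := by
  rw [← C4_img]
  exact hG _ (mem_powersetCard.2 ⟨h, card_img κ⟩)

theorem ok6_loc {ok : ℕ → Bool} (ι : Fin 6 ↪o V) (hG : G ok H (img ι)) :
    Ok6 (fun t => ok t = true) (e H (ι 0) (ι 1) (ι 2)) (e H (ι 0) (ι 1) (ι 3)) (e H (ι 0) (ι 2) (ι 3)) (e H (ι 1) (ι 2) (ι 3)) (e H (ι 0) (ι 1) (ι 4)) (e H (ι 0) (ι 2) (ι 4)) (e H (ι 1) (ι 2) (ι 4)) (e H (ι 0) (ι 3) (ι 4)) (e H (ι 1) (ι 3) (ι 4)) (e H (ι 2) (ι 3) (ι 4)) (e H (ι 0) (ι 1) (ι 5)) (e H (ι 0) (ι 2) (ι 5)) (e H (ι 1) (ι 2) (ι 5)) (e H (ι 0) (ι 3) (ι 5)) (e H (ι 1) (ι 3) (ι 5)) (e H (ι 2) (ι 3) (ι 5)) (e H (ι 0) (ι 4) (ι 5)) (e H (ι 1) (ι 4) (ι 5)) (e H (ι 2) (ι 4) (ι 5)) (e H (ι 3) (ι 4) (ι 5)) :=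
  ⟨ok_loc hG (sk 4 (sk 5 ι)) (sub2 4 5 ι), ok_loc hG (sk 3 (sk 5 ι)) (sub2 3 5 ι), ok_loc hG (sk 2 (sk 5 ι)) (sub2 2 5 ι), ok_loc hG (sk 1 (sk 5 ι)) (sub2 1 5 ι), ok_loc hG (sk 0 (sk 5 ι)) (sub2 0 5 ι), ok_loc hG (sk 3 (sk 4 ι)) (sub2 3 4 ι), ok_loc hG (sk 2 (sk 4 ι)) (sub2 2 4 ι), ok_loc hG (sk 1 (sk 4 ι)) (sub2 1 4 ι), ok_loc hG (sk 0 (sk 4 ι)) (sub2 0 4 ι), ok_loc hG (sk 2 (sk 3 ι)) (sub2 2 3 ι), ok_loc hG (sk 1 (sk 3 ι)) (sub2 1 3 ι), ok_loc hG (sk 0 (sk 3 ι)) (sub2 0 3 ι), ok_loc hG (sk 1 (sk 2 ι)) (sub2 1 2 ι), ok_loc hG (sk 0 (sk 2 ι)) (sub2 0 2 ι), ok_loc hG (sk 0 (sk 1 ι)) (sub2 0 1 ι)⟩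

theorem ix_loc {ok : ℕ → Bool} {ix : ℕ → ℕ → ℕ}
    {N : ℕ → ℕ} (hix : IxOk ok ix N) {T : Finset V} (hT : T ∈ P V 4) {x : V} (hx : x ∉ T)
    (hG : G ok H (insert x T)) :
    ix (pos T x) (C5 H (insert x T)) < N (C4 H T) := by
  obtain ⟨κ, p, h1, h2, h3⟩ := exists_ins (mem_P.1 hT) hx
  have h4 : pos T x = p := by
    have := pos_img κ p
    rw [erase_img, ← h3, ← h2] at this
    exact this
  rw [h1] at hG
  rw [h1, C5_img, h4, h3, C4_img]
  have o0 := ok_loc hG (sk 4 κ) (sub1 _ _)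
  have o1 := ok_loc hG (sk 3 κ) (sub1 _ _)
  have o2 := ok_loc hG (sk 2 κ) (sub1 _ _)
  have o3 := ok_loc hG (sk 1 κ) (sub1 _ _)
  have o4 := ok_loc hG (sk 0 κ) (sub1 _ _)
  have h := hix _ _ _ _ _ _ _ _ _ _ (e_le H (κ 0) (κ 1) (κ 2)) (e_le H (κ 0) (κ 1) (κ 3))
    (e_le H (κ 0) (κ 2) (κ 3)) (e_le H (κ 1) (κ 2) (κ 3)) (e_le H (κ 0) (κ 1) (κ 4))
    (e_le H (κ 0) (κ 2) (κ 4)) (e_le H (κ 1) (κ 2) (κ 4)) (e_le H (κ 0) (κ 3) (κ 4))
    (e_le H (κ 1) (κ 3) (κ 4)) (e_le H (κ 2) (κ 3) (κ 4)) o0 o1 o2 o3 o4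
  obtain ⟨i0, i1, i2, i3, i4⟩ := h
  fin_cases p
  · exact i0
  · exact i1
  · exact i2
  · exact i3
  · exact i4

theorem ix2_loc {ok : ℕ → Bool} {ix : ℕ → ℕ → ℕ}
    {N : ℕ} (hix : Ix2Ok ok ix N) {K T : Finset V} (hK : K ∈ P V 4) (hT : T ∈ K.powersetCard 2)
    (hok : ok (C4 H K) = true) :
    ix (msk K T) (C4 H K) < N := by
  obtain ⟨κ, rfl⟩ := exists_img (mem_P.1 hK)
  rw [mem_powersetCard] at hT
  obtain ⟨x, y, hxy, rfl⟩ := card_eq_two.1 hT.2
  have hx : x ∈ img κ := hT.1 (by simp)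
  have hy : y ∈ img κ := hT.1 (by simp)
  obtain ⟨a, rfl⟩ : ∃ p, κ p = x := by simpa [img] using hx
  obtain ⟨b, rfl⟩ : ∃ p, κ p = y := by simpa [img] using hy
  have hab : a ≠ b := fun h => hxy (by rw [h])
  rw [msk_img κ a b hab, C4_img]
  have h := hix _ _ _ _ (e_le H (κ 0) (κ 1) (κ 2)) (e_le H (κ 0) (κ 1) (κ 3))
    (e_le H (κ 0) (κ 2) (κ 3)) (e_le H (κ 1) (κ 2) (κ 3)) (by rw [C4_img] at hok; exact hok)
  obtain ⟨h3, h5, h6, h9, h10, h12⟩ := h
  fin_cases a <;> fin_cases b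
  · exact absurd rfl hab
  · exact h3
  · exact h5
  · exact h9
  · exact h3
  · exact absurd rfl hab
  · exact h6
  · exact h10
  · exact h5
  · exact h6
  · exact absurd rfl hab
  · exact h12
  · exact h9
  · exact h10
  · exact h12
  · exact absurd rfl hab

theorem six_four {S K : Finset V} (hS : S.card = 6) (hK : K ∈ S.powersetCard 4) :
    ((S.powersetCard 4).filter (fun K' => (K ∩ K').card = 2)).card ≤ 6 := by
  rw [mem_powersetCard] at hK
  have h6 : (K.powersetCard 2).card = 6 := by rw [card_powersetCard, hK.2]; rfl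
  rw [← h6]
  have key : ∀ A : Finset V, A ⊆ S → A.card = 4 → (K ∩ A).card = 2 → A = (K ∩ A) ∪ (S \ K) := by
    intro A hA hA4 hA2
    have h1 : A \ K ⊆ S \ K := sdiff_subset_sdiff hA (subset_refl _)
    have h2 : (A \ K).card + (K ∩ A).card = A.card := by
      rw [inter_comm]; exact card_sdiff_add_card_inter A K
    have h3 : (S \ K).card = 2 := by rw [card_sdiff_of_subset hK.1, hS, hK.2]
    have h4 : A \ K = S \ K := eq_of_subset_of_card_le h1 (by omega)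
    rw [← h4, inter_comm, union_comm]
    exact (sdiff_union_inter A K).symm
  refine card_le_card_of_injOn (fun K' => K ∩ K') ?_ ?_
  · intro K' h
    rw [mem_coe, mem_filter] at h
    rw [mem_coe, mem_powersetCard]
    exact ⟨inter_subset_left, h.2⟩
  · intro A hA B hB h
    rw [mem_coe, mem_filter, mem_powersetCard] at hA hB
    have h' : K ∩ A = K ∩ B := h
    rw [key A hA.1.1 hA.1.2 hA.2, key B hB.1.1 hB.1.2 hB.2, h']

/-- the term of two vertices, if the two sets of five are allowed -/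
noncomputable def f4 (ok : ℕ → Bool) (H : Finset (Finset V)) (ix : ℕ → ℕ → ℕ)
    (q : ℕ → ℕ → ℕ → ℤ) (T : Finset V) (x y : V) : ℤ :=
  if G ok H (insert x T) ∧ G ok H (insert y T) then Qt H ix q T x y else 0

theorem lower4' {ok : ℕ → Bool} {ix : ℕ → ℕ → ℕ}
    {N : ℕ → ℕ} (hix : IxOk ok ix N) {q : ℕ → ℕ → ℕ → ℤ}
    (hpsd : ∀ t, ok t = true → ∀ (s : Finset V) (I : V → ℕ), (∀ x ∈ s, I x < N t) →
      0 ≤ ∑ x ∈ s, ∑ y ∈ s, q t (I x) (I y))
    {M : ℤ} (hM : 0 ≤ M) (hdiag : ∀ t, ok t = true → ∀ i < N t, q t i i ≤ M) :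
    -(M * (Fintype.card V).choose 4 * Fintype.card V) ≤
      ∑ T ∈ P V 4, ∑ x ∈ Tᶜ, ∑ y ∈ Tᶜ.erase x, f4 ok H ix q T x y := by
  have h1 : ∀ T ∈ P V 4, -(M * Fintype.card V) ≤
      ∑ x ∈ Tᶜ, ∑ y ∈ Tᶜ.erase x, f4 ok H ix q T x y := by
    intro T hT
    have okT : ∀ x : V, G ok H (insert x T) → ok (C4 H T) = true := fun x hx =>
      hx T (mem_powersetCard.2 ⟨subset_insert _ _, mem_P.1 hT⟩)
    have h2 : 0 ≤ ∑ x ∈ Tᶜ, ∑ y ∈ Tᶜ, f4 ok H ix q T x y := by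
      by_cases hk : ok (C4 H T) = true
      · have h := hpsd (C4 H T) hk (Tᶜ.filter fun x => G ok H (insert x T))
          (fun x => ix (pos T x) (C5 H (insert x T))) fun x hx => by
            rw [mem_filter, mem_compl] at hx
            exact ix_loc hix hT hx.1 hx.2
        refine h.trans (le_of_eq ?_)
        rw [sum_filter]
        refine sum_congr rfl fun x _ => ?_
        split_ifs with hx
        · rw [sum_filter]
          refine sum_congr rfl fun y _ => ?_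
          unfold f4
          by_cases hy : G ok H (insert y T)
          · rw [if_pos hy, if_pos ⟨hx, hy⟩]
            rfl
          · rw [if_neg hy, if_neg fun h => hy h.2]
        · refine (sum_eq_zero fun y _ => ?_).symm
          unfold f4
          rw [if_neg fun h => hx h.1]
      · refine le_of_eq (sum_eq_zero fun x _ => sum_eq_zero fun y _ => ?_).symm
        unfold f4
        rw [if_neg fun h => hk (okT x h.1)]
    have h3 : ∑ x ∈ Tᶜ, ∑ y ∈ Tᶜ, f4 ok H ix q T x y =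
        ∑ x ∈ Tᶜ, f4 ok H ix q T x x + ∑ x ∈ Tᶜ, ∑ y ∈ Tᶜ.erase x, f4 ok H ix q T x y := by
      rw [← sum_add_distrib]
      exact sum_congr rfl fun x hx => (add_sum_erase _ _ hx).symm
    have h4 : ∑ x ∈ Tᶜ, f4 ok H ix q T x x ≤ M * Fintype.card V := by
      calc ∑ x ∈ Tᶜ, f4 ok H ix q T x x ≤ ∑ x ∈ Tᶜ, M :=
            sum_le_sum fun x hx => by
              unfold f4
              split_ifs with hg
              · exact hdiag _ (okT x hg.1) _ (ix_loc hix hT (mem_compl.1 hx) hg.1)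
              · exact hM
        _ = Tᶜ.card * M := by rw [sum_const, nsmul_eq_mul]
        _ ≤ M * Fintype.card V := by
            rw [mul_comm]
            exact mul_le_mul_of_nonneg_left (by exact_mod_cast card_le_univ Tᶜ) hM
    linarith
  have h6 := sum_le_sum h1
  rw [sum_const, nsmul_eq_mul] at h6
  have h7 : (P V 4).card = (Fintype.card V).choose 4 := by
    unfold P
    rw [card_powersetCard, card_univ]
  rw [h7] at h6
  refine le_trans (le_of_eq ?_) h6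
  ring

/-- indices for all patterns -/
def ixa (ok : ℕ → Bool) (ix : ℕ → ℕ → ℕ) (N : ℕ) (p c : ℕ) : ℕ := cond (ok c) (ix p c) N

/-- zero outside the range -/
def q2a (N : ℕ) (q : ℕ → ℕ → ℤ) (i j : ℕ) : ℤ := if i < N ∧ j < N then q i j else 0

theorem ixa_ok {ok : ℕ → Bool} {ix : ℕ → ℕ → ℕ} {N : ℕ} (h : Ix2Ok ok ix N) :
    Ix2Ok (fun _ => true) (ixa ok ix N) (N + 1) := by
  intro b0 b1 b2 b3 h0 h1 h2 h3 _
  unfold ixa
  cases hk : ok (c4 b0 b1 b2 b3)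
  · simp
  · obtain ⟨i0, i1, i2, i3, i4, i5⟩ := h b0 b1 b2 b3 h0 h1 h2 h3 hk
    simp only [cond_true]
    refine ⟨?_, ?_, ?_, ?_, ?_, ?_⟩ <;> omega

theorem psd2a {W : Type} {N : ℕ} {q : ℕ → ℕ → ℤ}
    (hpsd : ∀ (s : Finset W) (I : W → ℕ), (∀ x ∈ s, I x < N) →
      0 ≤ ∑ x ∈ s, ∑ y ∈ s, q (I x) (I y)) (s : Finset W) (I : W → ℕ) :
    0 ≤ ∑ x ∈ s, ∑ y ∈ s, q2a N q (I x) (I y) := by
  have h := hpsd (s.filter fun x => I x < N) I fun x hx => (mem_filter.1 hx).2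
  refine h.trans (le_of_eq ?_)
  rw [sum_filter]
  refine sum_congr rfl fun x _ => ?_
  split_ifs with hx
  · rw [sum_filter]
    refine sum_congr rfl fun y _ => ?_
    unfold q2a
    by_cases hy : I y < N
    · rw [if_pos hy, if_pos ⟨hx, hy⟩]
    · rw [if_neg hy, if_neg fun h => hy h.2]
  · refine (sum_eq_zero fun y _ => ?_).symm
    unfold q2a
    rw [if_neg fun h => hx h.1]

theorem leafS {ok : ℕ → Bool} {κ : ℤ}
    {ix : ℕ → ℕ → ℕ} {q : ℕ → ℕ → ℕ → ℤ}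
    (hq : ∀ s a b, q s a b = q s b a)
    {ix2 : ℕ → ℕ → ℕ} {q2 : ℕ → ℕ → ℤ}
    (hq2 : ∀ a b, q2 a b = q2 b a)
    (hleaf : Leaf ok κ 0 ix q ix2 q2) (S : Finset V) (hS : S ∈ P V 6) (hG : G ok H S) :
    9 * κ * ∑ A ∈ S.powersetCard 3, (if A ∈ H then (1 : ℤ) else 0) +
      ∑ x ∈ S, ∑ y ∈ S.erase x, Qt H ix q ((S.erase x).erase y) x y +
      0 * ∑ x ∈ S, Wt H (S.erase x) +
      ∑ K ∈ S.powersetCard 4, ∑ K' ∈ (S.powersetCard 4).filter (fun K' => (K ∩ K').card = 2),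
        Q2t H ix2 q2 K K' ≤ 100 * κ := by
  obtain ⟨ι, rfl⟩ := exists_img (mem_P.1 hS)
  rw [edg_img, pairs_img ix q hq, w5_img, two_img ix2 q2 hq2]
  exact hleaf (e H (ι 0) (ι 1) (ι 2)) (e H (ι 0) (ι 1) (ι 3)) (e H (ι 0) (ι 2) (ι 3)) (e H (ι 1) (ι 2) (ι 3)) (e H (ι 0) (ι 1) (ι 4)) (e H (ι 0) (ι 2) (ι 4)) (e H (ι 1) (ι 2) (ι 4)) (e H (ι 0) (ι 3) (ι 4)) (e H (ι 1) (ι 3) (ι 4)) (e H (ι 2) (ι 3) (ι 4)) (e H (ι 0) (ι 1) (ι 5)) (e H (ι 0) (ι 2) (ι 5)) (e H (ι 1) (ι 2) (ι 5)) (e H (ι 0) (ι 3) (ι 5)) (e H (ι 1) (ι 3) (ι 5)) (e H (ι 2) (ι 3) (ι 5)) (e H (ι 0) (ι 4) (ι 5)) (e H (ι 1) (ι 4) (ι 5)) (e H (ι 2) (ι 4) (ι 5)) (e H (ι 3) (ι 4) (ι 5)) (e_le H (ι 0) (ι 1) (ι 2)) (e_le H (ι 0) (ι 1) (ι 3)) (e_le H (ι 0) (ι 2) (ι 3)) (e_le H (ι 1) (ι 2) (ι 3)) (e_le H (ι 0) (ι 1) (ι 4)) (e_le H (ι 0) (ι 2) (ι 4)) (e_le H (ι 1) (ι 2) (ι 4)) (e_le H (ι 0) (ι 3) (ι 4)) (e_le H (ι 1) (ι 3) (ι 4)) (e_le H (ι 2) (ι 3) (ι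 4)) (e_le H (ι 0) (ι 1) (ι 5)) (e_le H (ι 0) (ι 2) (ι 5)) (e_le H (ι 1) (ι 2) (ι 5)) (e_le H (ι 0) (ι 3) (ι 5)) (e_le H (ι 1) (ι 3) (ι 5)) (e_le H (ι 2) (ι 3) (ι 5)) (e_le H (ι 0) (ι 4) (ι 5)) (e_le H (ι 1) (ι 4) (ι 5)) (e_le H (ι 2) (ι 4) (ι 5)) (e_le H (ι 3) (ι 4) (ι 5)) (ok6_loc ι hG)

theorem main_rob {ok : ℕ → Bool} (h3 : ∀ A ∈ H, A.card = 3)
    {κ : ℤ} (hκ : 0 ≤ κ)
    {ix : ℕ → ℕ → ℕ} {N : ℕ → ℕ} (hix : IxOk ok ix N) {q : ℕ → ℕ → ℕ → ℤ}
    (hq : ∀ s a b, q s a b = q s b a)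
    (hpsd : ∀ t, ok t = true → ∀ (s : Finset V) (I : V → ℕ), (∀ x ∈ s, I x < N t) →
      0 ≤ ∑ x ∈ s, ∑ y ∈ s, q t (I x) (I y))
    {M : ℤ} (hM : 0 ≤ M) (hmax4 : ∀ t, ok t = true → ∀ i < N t, ∀ j < N t, q t i j ≤ M)
    {ix2 : ℕ → ℕ → ℕ} {N2 : ℕ} (hix2 : Ix2Ok ok ix2 N2) {q2 : ℕ → ℕ → ℤ}
    (hq2 : ∀ a b, q2 a b = q2 b a)
    (hpsd2 : ∀ (s : Finset (Finset V)) (I : Finset V → ℕ), (∀ x ∈ s, I x < N2) →
      0 ≤ ∑ x ∈ s, ∑ y ∈ s, q2 (I x) (I y))
    {M2 : ℤ} (hM2 : 0 ≤ M2) (hmax : ∀ i < N2, ∀ j < N2, q2 i j ≤ M2)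
    (hleaf : Leaf ok κ 0 ix q ix2 q2) :
    9 * κ * ((Fintype.card V - 3).choose 3 : ℕ) * H.card ≤
      100 * κ * ((Fintype.card V).choose 6 : ℕ) +
      (M + 24 * M2) * ((Fintype.card V).choose 4 : ℕ) * Fintype.card V +
      (80 * κ + 30 * M + 90 * M2) * ((Fintype.card V - 4).choose 2 : ℕ) * (badT ok H).card := by
  set D : ℤ := 80 * κ + 30 * M + 90 * M2 with hD
  have hD0 : 0 ≤ D := by positivity
  set g : Finset V → ℤ := fun T => if ok (C4 H T) = false then 1 else 0 with hg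
  have g0 : ∀ T, 0 ≤ g T := fun T => by simp only [hg]; split_ifs <;> norm_num
  have hl : ∀ S ∈ P V 6, 9 * κ * ∑ A ∈ S.powersetCard 3, (if A ∈ H then (1 : ℤ) else 0) +
      ∑ x ∈ S, ∑ y ∈ S.erase x, f4 ok H ix q ((S.erase x).erase y) x y +
      ∑ K ∈ S.powersetCard 4, ∑ K' ∈ (S.powersetCard 4).filter (fun K' => (K ∩ K').card = 2),
        Q2t H (ixa ok ix2 N2) (q2a N2 q2) K K' ≤ 100 * κ + D * ∑ T ∈ S.powersetCard 4, g T := by
    intro S hS
    have hS6 := mem_P.1 hS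
    by_cases hG : G ok H S
    · have h := leafS hq hq2 hleaf S hS hG
      have e1 : ∑ x ∈ S, ∑ y ∈ S.erase x, f4 ok H ix q ((S.erase x).erase y) x y =
          ∑ x ∈ S, ∑ y ∈ S.erase x, Qt H ix q ((S.erase x).erase y) x y := by
        refine sum_congr rfl fun x hx => sum_congr rfl fun y hy => ?_
        unfold f4
        rw [if_pos]
        have hsub : (S.erase x).erase y ⊆ S := (erase_subset _ _).trans (erase_subset _ _)
        exact ⟨G_mono (insert_subset hx hsub) hG,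
          G_mono (insert_subset (mem_of_mem_erase hy) hsub) hG⟩
      have e2 : ∑ K ∈ S.powersetCard 4, ∑ K' ∈ (S.powersetCard 4).filter
          (fun K' => (K ∩ K').card = 2), Q2t H (ixa ok ix2 N2) (q2a N2 q2) K K' =
          ∑ K ∈ S.powersetCard 4, ∑ K' ∈ (S.powersetCard 4).filter
          (fun K' => (K ∩ K').card = 2), Q2t H ix2 q2 K K' := by
        refine sum_congr rfl fun K hK => sum_congr rfl fun K' hK' => ?_
        rw [mem_filter] at hK'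
        have hc := hK'.2
        have i1 : ixa ok ix2 N2 (msk K (K ∩ K')) (C4 H K) = ix2 (msk K (K ∩ K')) (C4 H K) := by
          unfold ixa; rw [hG K hK]; rfl
        have i2 : ixa ok ix2 N2 (msk K' (K ∩ K')) (C4 H K') = ix2 (msk K' (K ∩ K')) (C4 H K') := by
          unfold ixa; rw [hG K' hK'.1]; rfl
        have l1 : ix2 (msk K (K ∩ K')) (C4 H K) < N2 := ix2_loc hix2 (mem_P.2 (mem_powersetCard.1 hK).2)
          (mem_powersetCard.2 ⟨inter_subset_left, hc⟩) (hG K hK)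
        have l2 : ix2 (msk K' (K ∩ K')) (C4 H K') < N2 :=
          ix2_loc hix2 (mem_P.2 (mem_powersetCard.1 hK'.1).2)
          (mem_powersetCard.2 ⟨inter_subset_right, hc⟩) (hG K' hK'.1)
        unfold Q2t
        rw [i1, i2]
        unfold q2a
        rw [if_pos ⟨l1, l2⟩]
      have e3 : 0 ≤ D * ∑ T ∈ S.powersetCard 4, g T := mul_nonneg hD0 (sum_nonneg fun T _ => g0 T)
      rw [e1, e2]
      linarith
    · have hb : 1 ≤ ∑ T ∈ S.powersetCard 4, g T := by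
        unfold G at hG
        push Not at hG
        obtain ⟨T, hT, hT2⟩ := hG
        have : g T = 1 := by
          simp only [hg]
          rw [if_pos]
          cases h : ok (C4 H T)
          · rfl
          · exact absurd h hT2
        rw [← this]
        exact single_le_sum (fun T _ => g0 T) hT
      have b1 : ∑ A ∈ S.powersetCard 3, (if A ∈ H then (1 : ℤ) else 0) ≤ 20 := by
        calc ∑ A ∈ S.powersetCard 3, (if A ∈ H then (1 : ℤ) else 0) ≤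
            ∑ A ∈ S.powersetCard 3, (1 : ℤ) := sum_le_sum fun A _ => by split_ifs <;> norm_num
          _ = 20 := by
            rw [sum_const, card_powersetCard, hS6]
            rfl
      have b2 : ∑ x ∈ S, ∑ y ∈ S.erase x, f4 ok H ix q ((S.erase x).erase y) x y ≤ 30 * M := by
        calc _ ≤ ∑ x ∈ S, ∑ y ∈ S.erase x, M := by
              refine sum_le_sum fun x hx => sum_le_sum fun y hy => ?_
              unfold f4
              split_ifs with hgg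
              · have hx' : x ∉ (S.erase x).erase y := fun h =>
                  (notMem_erase x S) (mem_of_mem_erase h)
                have hy' : y ∉ (S.erase x).erase y := notMem_erase _ _
                have hT : (S.erase x).erase y ∈ P V 4 := by
                  rw [mem_P, card_erase_of_mem hy, card_erase_of_mem hx, hS6]
                exact hmax4 _ (hgg.1 _ (mem_powersetCard.2 ⟨subset_insert _ _, mem_P.1 hT⟩)) _
                  (ix_loc hix hT hx' hgg.1) _ (ix_loc hix hT hy' hgg.2)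
              · exact hM
          _ = 30 * M := by
            have : ∀ x ∈ S, ∑ y ∈ S.erase x, M = 5 * M := fun x hx => by
              rw [sum_const, card_erase_of_mem hx, hS6, nsmul_eq_mul]
              norm_num
            rw [sum_congr rfl this, sum_const, hS6, nsmul_eq_mul]
            push_cast
            ring
      have b3 : ∑ K ∈ S.powersetCard 4, ∑ K' ∈ (S.powersetCard 4).filter
          (fun K' => (K ∩ K').card = 2), Q2t H (ixa ok ix2 N2) (q2a N2 q2) K K' ≤ 90 * M2 := by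
        calc _ ≤ ∑ K ∈ S.powersetCard 4, ∑ K' ∈ (S.powersetCard 4).filter
              (fun K' => (K ∩ K').card = 2), M2 := by
              refine sum_le_sum fun K hK => sum_le_sum fun K' hK' => ?_
              unfold Q2t q2a
              split_ifs with h
              · exact hmax _ h.1 _ h.2
              · exact hM2
          _ ≤ ∑ K ∈ S.powersetCard 4, 6 * M2 := by
            refine sum_le_sum fun K hK => ?_
            rw [sum_const, nsmul_eq_mul]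
            refine mul_le_mul_of_nonneg_right ?_ hM2
            exact_mod_cast six_four hS6 hK
          _ = 90 * M2 := by
            rw [sum_const, card_powersetCard, hS6, nsmul_eq_mul]
            have : ((Nat.choose 6 4 : ℕ) : ℤ) = 15 := by decide
            rw [this]
            ring
      have b4 : 9 * κ * ∑ A ∈ S.powersetCard 3, (if A ∈ H then (1 : ℤ) else 0) ≤ 9 * κ * 20 :=
        mul_le_mul_of_nonneg_left b1 (by positivity)
      have b5 : D * 1 ≤ D * ∑ T ∈ S.powersetCard 4, g T := mul_le_mul_of_nonneg_left hb hD0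
      rw [mul_one] at b5
      rw [hD] at b5
      linarith
  have hs := sum_le_sum hl
  have r : ∑ S ∈ P V 6, (100 * κ + D * ∑ T ∈ S.powersetCard 4, g T) =
      ((P V 6).card : ℤ) * (100 * κ) +
        D * ((((Fintype.card V - 4).choose 2 : ℕ) : ℤ) * ∑ T ∈ P V 4, g T) := by
    rw [sum_add_distrib, sum_const, nsmul_eq_mul, ← mul_sum, dc V g]
  rw [r, sum_add_distrib, sum_add_distrib, ← mul_sum, dc3, ← dc4, ← dc2] at hs
  have e6 : ((P V 6).card : ℤ) = ((Fintype.card V).choose 6 : ℕ) := by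
    unfold P
    rw [card_powersetCard, card_univ]
  have eH : ∑ A ∈ P V 3, (if A ∈ H then (1 : ℤ) else 0) = H.card := by
    rw [← sum_filter, sum_const, nsmul_eq_mul, mul_one]
    congr 2
    ext A
    rw [mem_filter, mem_P]
    exact ⟨fun h => h.2, fun h => ⟨h3 A h, h⟩⟩
  have eg : ∑ T ∈ P V 4, g T = (badT ok H).card := by
    simp only [hg]
    rw [← sum_filter, sum_const, nsmul_eq_mul, mul_one]
    rfl
  have l4 := lower4' (H := H) hix hpsd hM fun t ht i hi => hmax4 t ht i hi i hi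
  have l2 := lower2 (H := H) (ok := fun _ => true) (fun _ _ => rfl) (ixa_ok hix2)
    (q := q2a N2 q2) (fun s I _ => psd2a hpsd2 s I) hM2 (fun i _ j _ => by
      unfold q2a
      split_ifs with h
      · exact hmax _ h.1 _ h.2
      · exact hM2)
  rw [e6, eH, eg] at hs
  linarith

end Pool.Agent.Helper3.RB
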