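import Pool.Agent.Helper3.RB.Stm

/-! Double counting: sets of four in sets of six. -/

set_option autoImplicit false
open Finset

namespace Pool.Agent.Helper3.RB

open Pool.Agent.Helper3.OP

theorem dc : S_DC := by
  intro V _ _ w
  have h1 : ∑ S ∈ P V 6, ∑ A ∈ S.powersetCard 4, w A =
      ∑ A ∈ P V 4, ∑ B ∈ Aᶜ.powersetCard 2, w A := by
    rw [sum_sigma', sum_sigma']
    refine sum_bij' (fun p _ => ⟨p.2, p.1 \ p.2⟩) (fun p _ => ⟨p.1 ∪ p.2, p.1⟩) ?_ ?_ ?_ ?_ ?_
    · rintro ⟨S, A⟩ h
      simp only [mem_sigma, mem_P, mem_powersetCard] at h ⊢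
      obtain ⟨hS, hA, hA3⟩ := h
      refine ⟨hA3, ?_, ?_⟩
      · intro x hx
        rw [mem_sdiff] at hx
        exact mem_compl.2 hx.2
      · rw [card_sdiff_of_subset hA, hS, hA3]
    · rintro ⟨A, B⟩ h
      simp only [mem_sigma, mem_P, mem_powersetCard] at h ⊢
      obtain ⟨hA, hB, hB3⟩ := h
      refine ⟨?_, subset_union_left, hA⟩
      rw [card_union_of_disjoint, hA, hB3]
      rw [disjoint_left]
      intro x hx hx'
      exact (mem_compl.1 (hB hx')) hx
    · rintro ⟨S, A⟩ h
      simp only [mem_sigma, mem_P, mem_powersetCard] at h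
      obtain ⟨hS, hA, hA3⟩ := h
      simp only [union_sdiff_of_subset hA]
    · rintro ⟨A, B⟩ h
      simp only [mem_sigma, mem_P, mem_powersetCard] at h
      obtain ⟨hA, hB, hB3⟩ := h
      have : Disjoint A B := by
        rw [disjoint_left]
        intro x hx hx'
        exact (mem_compl.1 (hB hx')) hx
      simp only [union_sdiff_cancel_left this]
    · rintro ⟨S, A⟩ h
      rfl
  rw [h1, mul_sum]
  refine sum_congr rfl fun A hA => ?_
  rw [sum_const, nsmul_eq_mul, card_powersetCard, card_compl]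
  rw [mem_P] at hA
  rw [hA]

end Pool.Agent.Helper3.RB
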