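import Pool.Agent.Helper3.OP.Fin2

/-! Statements. -/

set_option autoImplicit false
open Finset

namespace Pool.Agent.Helper3.RB

open Pool.Agent.Helper3.OP

/-- the sets of four with a pattern that is not allowed -/
def badT {V : Type} [Fintype V] [LinearOrder V] (ok : ℕ → Bool) (H : Finset (Finset V)) :
    Finset (Finset V) := (P V 4).filter fun T => ok (C4 H T) = false

/-- sets of four in sets of six -/
def S_DC : Prop := ∀ (V : Type) [Fintype V] [LinearOrder V] (g : Finset V → ℤ),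
  ∑ S ∈ P V 6, ∑ T ∈ S.powersetCard 4, g T =
    (((Fintype.card V - 4).choose 2 : ℕ) : ℤ) * ∑ T ∈ P V 4, g T

/-- the bad sets of four of a blow-up -/
def S_BL : Prop := ∀ (ok : ℕ → Bool), ok 0 = true → ok 3 = true → ok 6 = true → ok 12 = true →
  ∀ (V : Type) [Fintype V] [LinearOrder V] (H : Finset (Finset V)), (∀ A ∈ H, A.card = 3) →
  ∀ m : ℕ, (badT ok (bl H m)).card ≤ m ^ 4 * (badT ok H).card

/-- the limit for large blow-ups: `n` vertices, `h` edges, `b` bad sets of four; `hm m`, `bm m` are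
the numbers of the blow-up with parts of size `m` -/
def S_LIM : Prop := ∀ (κ A D : ℝ), 0 < κ → 0 ≤ A → 0 ≤ D → ∀ (n h b : ℕ), b ≤ n.choose 4 →
  ∀ (hm bm : ℕ → ℕ), (∀ m, m ^ 3 * h ≤ hm m) → (∀ m, bm m ≤ m ^ 4 * b) →
  (∀ m, 5 ≤ n * m → 9 * κ * ((n * m - 3).choose 3 : ℕ) * hm m ≤ 100 * κ * ((n * m).choose 6 : ℕ) +
    A * ((n * m).choose 4 : ℕ) * (n * m : ℕ) + D * ((n * m - 4).choose 2 : ℕ) * bm m) →
  (n : ℝ) * h ≤ 5 / 54 * (n : ℝ) ^ 4 + D / (3 * κ) * b

end Pool.Agent.Helper3.RB
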